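import Pool.Agent.H912R3.Eq.Fin2

set_option autoImplicit false
open MeasureTheory

namespace Pool.Agent.Results.MP_4c844b_co.EhrhartVolume

/-- The lattice `A ℤᵈ`. -/
def lattice {d : ℕ} (A : Matrix (Fin d) (Fin d) ℝ) : Set (Fin d → ℝ) :=
  Set.range fun z : Fin d → ℤ => A.mulVec fun i => (z i : ℝ)

/-- The centroid `(1 / V(K)) ∫_K x dx`. -/
noncomputable def centroid {d : ℕ} (K : Set (Fin d → ℝ)) : Fin d → ℝ :=
  (volume K).toReal⁻¹ • ∫ x in K, x

/-- The simplex `(d + 1) conv(0, e₁, …, e_d) - (1, …, 1)`. -/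
def simplex (d : ℕ) : Set (Fin d → ℝ) := {y | (∀ i, -1 ≤ y i) ∧ ∑ i, y i ≤ 1}

theorem mem_Tx_iff {d : ℕ} (y : Fin d → ℝ) :
    (fun i => y i + 1) ∈ Pool.Agent.H912R3.Ehr.Tx d (d + 1) ↔ y ∈ simplex d := by
  constructor
  · rintro ⟨h1, h2⟩
    refine ⟨fun i => by have := h1 i; simp only at this; linarith, ?_⟩
    simp only [Finset.sum_add_distrib, Finset.sum_const, Finset.card_univ, Fintype.card_fin,
      nsmul_eq_mul, mul_one] at h2
    linarith
  · rintro ⟨h1, h2⟩
    refine ⟨fun i => by have := h1 i; simp only; linarith, ?_⟩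
    simp only [Finset.sum_add_distrib, Finset.sum_const, Finset.card_univ, Fintype.card_fin,
      nsmul_eq_mul, mul_one]
    linarith

theorem inv_map {d : ℕ} (M : Matrix (Fin d) (Fin d) ℤ) (hM : IsUnit M.det) :
    M.map (Int.cast : ℤ → ℝ) * M⁻¹.map (Int.cast : ℤ → ℝ) = 1 ∧
    M⁻¹.map (Int.cast : ℤ → ℝ) * M.map (Int.cast : ℤ → ℝ) = 1 := by
  have h : ∀ P Q : Matrix (Fin d) (Fin d) ℤ, P * Q = 1 →
      P.map (Int.cast : ℤ → ℝ) * Q.map (Int.cast : ℤ → ℝ) = 1 := by
    intro P Q hPQ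
    have h1 : (Int.castRingHom ℝ).mapMatrix (P * Q) = 1 := by rw [hPQ, map_one]
    rw [map_mul] at h1
    exact h1
  exact ⟨h _ _ (Matrix.mul_nonsing_inv M hM), h _ _ (Matrix.nonsing_inv_mul M hM)⟩

/-- **Ehrhart's volume conjecture** (1955), in every dimension, with the case of equality. Let
`𝕃 = A ℤᵈ` be a lattice and `K` a convex body with centroid `0` and `(int K) ∩ 𝕃 = {0}`. Then
`V(K) ≤ (d + 1)ᵈ / d! · det 𝕃`. Equality holds if and only if `K` is the image of the simplex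
`(d + 1) conv(0, e₁, …, e_d) - (1, …, 1)` under the linear map `A U` for some `U ∈ GL_d(ℤ)`
(that is, under a linear map taking `ℤᵈ` onto `𝕃`). -/
theorem result (d : ℕ) (hd : 1 ≤ d) (A : Matrix (Fin d) (Fin d) ℝ) (hA : A.det ≠ 0)
    (K : Set (Fin d → ℝ)) (hK : IsCompact K) (hKc : Convex ℝ K) (hne : (interior K).Nonempty)
    (hz : centroid K = 0) (hL : interior K ∩ lattice A = {0}) :
    (volume K).toReal ≤ ((d : ℝ) + 1) ^ d / d.factorial * |A.det| ∧
    ((volume K).toReal = ((d : ℝ) + 1) ^ d / d.factorial * |A.det| ↔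
      ∃ U : Matrix (Fin d) (Fin d) ℤ, IsUnit U.det ∧
        K = (fun y => (A * U.map (Int.cast : ℤ → ℝ)).mulVec y) '' simplex d) := by
  have hVpos : 0 < (volume K).toReal := by
    have h1 : 0 < volume K := by
      have : 0 < volume (interior K) := isOpen_interior.measure_pos volume hne
      exact this.trans_le (measure_mono interior_subset)
    exact ENNReal.toReal_pos h1.ne' hK.measure_lt_top.ne
  have hI : (∫ x in K, x) = 0 := by
    rcases smul_eq_zero.1 hz with h | h
    · exact absurd h (inv_ne_zero hVpos.ne')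
    · exact h
  have hunit : IsUnit A.det := isUnit_iff_ne_zero.2 hA
  set S : (Fin d → ℝ) →ₗ[ℝ] (Fin d → ℝ) := Matrix.toLin' A⁻¹ with hS
  have hSdet : LinearMap.det S = (A.det)⁻¹ := by
    rw [hS, LinearMap.det_toLin', Matrix.det_nonsing_inv, Ring.inverse_eq_inv']
  have hSne : LinearMap.det S ≠ 0 := by rw [hSdet]; exact inv_ne_zero hA
  have hSA : ∀ x, S (A.mulVec x) = x := by
    intro x
    rw [hS, Matrix.toLin'_apply, Matrix.mulVec_mulVec, Matrix.nonsing_inv_mul A hunit,
      Matrix.one_mulVec]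
  have hAS : ∀ x, A.mulVec (S x) = x := by
    intro x
    rw [hS, Matrix.toLin'_apply, Matrix.mulVec_mulVec, Matrix.mul_nonsing_inv A hunit,
      Matrix.one_mulVec]
  set e : (Fin d → ℝ) ≃L[ℝ] (Fin d → ℝ) :=
    (LinearMap.equivOfDetNeZero S hSne).toContinuousLinearEquiv with he
  have heS : ∀ x, e x = S x := fun x => rfl
  set K' : Set (Fin d → ℝ) := (fun x => S x + 0) '' K with hK'
  have hK'e : K' = e '' K := by
    rw [hK']
    apply Set.image_congr
    intro x _
    rw [add_zero, heS]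
  have hcov := fun g => Pool.Agent.H912R3.Ehr.cov S hSne 0 hK.measurableSet g
  rw [← hK'] at hcov
  have c1 : IsCompact K' := by rw [hK'e]; exact hK.image e.continuous
  have c2 : Convex ℝ K' := by
    rw [hK'e]
    exact hKc.linear_image (e.toLinearEquiv : (Fin d → ℝ) →ₗ[ℝ] (Fin d → ℝ))
  have c3 : ∀ i, ∫ x in K', x i = 0 := by
    intro i
    rw [hcov (fun x => x i)]
    have hint : Integrable (fun x : Fin d → ℝ => x) (volume.restrict K) :=
      continuous_id.continuousOn.integrableOn_compact hK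
    have h2 := ((ContinuousLinearMap.proj (R := ℝ) (φ := fun _ : Fin d => ℝ) i).comp
      (e : (Fin d → ℝ) →L[ℝ] (Fin d → ℝ))).integral_comp_comm hint
    have h3 : ∫ x in K, (S x + 0) i = 0 := by
      have e1 : ∀ x, (S x + 0) i = ((ContinuousLinearMap.proj (R := ℝ)
          (φ := fun _ : Fin d => ℝ) i).comp (e : (Fin d → ℝ) →L[ℝ] (Fin d → ℝ))) x := by
        intro x
        rw [add_zero]
        rfl
      simp_rw [e1]
      rw [h2, hI, map_zero]
    rw [h3, mul_zero]
  have hint' : interior K' = e '' interior K := by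
    rw [hK'e]
    exact (e.toHomeomorph.image_interior K).symm
  have h0 : (0 : Fin d → ℝ) ∈ interior K := by
    have : (0 : Fin d → ℝ) ∈ interior K ∩ lattice A := by rw [hL]; exact rfl
    exact this.1
  have c4 : (0 : Fin d → ℝ) ∈ interior K' := by
    rw [hint']
    exact ⟨0, h0, map_zero e⟩
  have c5 : ∀ z : Fin d → ℤ, (fun i => (z i : ℝ)) ∈ interior K' → z = 0 := by
    intro z hz'
    rw [hint'] at hz'
    obtain ⟨x, hx, hxz⟩ := hz'
    have h1 : x = A.mulVec fun i => (z i : ℝ) := by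
      rw [← hxz, heS, hAS]
    have h2 : x ∈ interior K ∩ lattice A := ⟨hx, z, h1.symm⟩
    rw [hL] at h2
    have h3 : x = 0 := h2
    rw [h3, map_zero] at hxz
    funext i
    have h4 := congrFun hxz i
    simp only [Pi.zero_apply] at h4 ⊢
    exact_mod_cast h4.symm
  have hvol : volume.real K' = |A.det|⁻¹ * (volume K).toReal := by
    have h1 := hcov (fun _ => (1 : ℝ))
    rw [setIntegral_const, setIntegral_const, smul_eq_mul, smul_eq_mul, mul_one, mul_one, hSdet,
      abs_inv] at h1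
    exact h1
  have hAabs : 0 < |A.det| := abs_pos.2 hA
  have hKK' : ∀ x, x ∈ K' ↔ A.mulVec x ∈ K := by
    intro x
    rw [hK'e]
    constructor
    · rintro ⟨y, hy, rfl⟩
      rw [heS, hAS]
      exact hy
    · intro h
      exact ⟨_, h, by rw [heS, hSA]⟩
  refine ⟨?_, ?_, ?_⟩
  · have h := Pool.Agent.H912R3.Ehr.ehrhart_int hd c1 c2 c3 c4 c5
    rw [hvol, inv_mul_le_iff₀ hAabs] at h
    rw [mul_comm]
    exact h
  · intro h
    have hV : volume.real K' = ((d : ℝ) + 1) ^ d / d.factorial := by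
      rw [hvol, h]
      field_simp
    obtain ⟨M, hM, hKM⟩ := Pool.Agent.H912R3.Ehr.core_eq hd c1 c2 c3 c4 c5 hV
    have hmem : ∀ x, x ∈ K' ↔ (M.map (Int.cast : ℤ → ℝ)).mulVec x ∈ simplex d := by
      intro x
      rw [hKM, ← mem_Tx_iff]
      rfl
    obtain ⟨h1, h2⟩ := inv_map M hM
    refine ⟨M⁻¹, (Matrix.isUnit_nonsing_inv_det_iff).2 hM, ?_⟩
    apply Set.Subset.antisymm
    · intro x hx
      have hx' : S x ∈ K' := by
        rw [hKK', hAS]; exact hx
      refine ⟨(M.map (Int.cast : ℤ → ℝ)).mulVec (S x), (hmem _).1 hx', ?_⟩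
      show (A * M⁻¹.map (Int.cast : ℤ → ℝ)).mulVec ((M.map (Int.cast : ℤ → ℝ)).mulVec (S x)) = x
      rw [Matrix.mulVec_mulVec, Matrix.mul_assoc, h2, Matrix.mul_one, hAS]
    · rintro _ ⟨y, hy, rfl⟩
      show (A * M⁻¹.map (Int.cast : ℤ → ℝ)).mulVec y ∈ K
      rw [← Matrix.mulVec_mulVec, ← hKK', hmem, Matrix.mulVec_mulVec, h1, Matrix.one_mulVec]
      exact hy
  · rintro ⟨U, hU, hKU⟩
    obtain ⟨h1, h2⟩ := inv_map U hU
    have hM : IsUnit (U⁻¹).det := (Matrix.isUnit_nonsing_inv_det_iff).2 hU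
    have himg : (fun x : Fin d → ℝ => fun i => ∑ j, ((U⁻¹) i j : ℝ) * x j +
        (((fun _ => 1 : Fin d → ℤ) i : ℤ) : ℝ)) '' K' =
        Pool.Agent.H912R3.Ehr.Tx d (d + 1) := by
      apply Set.Subset.antisymm
      · rintro _ ⟨x, hx, rfl⟩
        rw [hKK', hKU] at hx
        obtain ⟨y, hy, hyx⟩ := hx
        have hyx' : (A * U.map (Int.cast : ℤ → ℝ)).mulVec y = A.mulVec x := hyx
        have hx2 : x = (U.map (Int.cast : ℤ → ℝ)).mulVec y := by
          rw [← hSA x, ← hyx', ← Matrix.mulVec_mulVec, hSA]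
        have hy2 : (U⁻¹.map (Int.cast : ℤ → ℝ)).mulVec x = y := by
          rw [hx2, Matrix.mulVec_mulVec, h2, Matrix.one_mulVec]
        have h3 := (mem_Tx_iff y).2 hy
        rw [← hy2] at h3
        have h5 : (fun i => ∑ j, ((U⁻¹) i j : ℝ) * x j + 1) ∈
            Pool.Agent.H912R3.Ehr.Tx d (d + 1) := h3
        simpa using h5
      · intro t ht
        have ht' : (fun i => t i - 1) ∈ simplex d := by
          rw [← mem_Tx_iff]
          simpa using ht
        refine ⟨(U.map (Int.cast : ℤ → ℝ)).mulVec (fun i => t i - 1), ?_, ?_⟩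
        · rw [hKK', hKU]
          refine ⟨_, ht', ?_⟩
          show (A * U.map (Int.cast : ℤ → ℝ)).mulVec _ = _
          rw [← Matrix.mulVec_mulVec]
        · have h3 : (U⁻¹.map (Int.cast : ℤ → ℝ)).mulVec ((U.map (Int.cast : ℤ → ℝ)).mulVec
              (fun i => t i - 1)) = fun i => t i - 1 := by
            rw [Matrix.mulVec_mulVec, h2, Matrix.one_mulVec]
          funext i
          have h4 := congrFun h3 i
          have h5 : ∑ j, ((U⁻¹) i j : ℝ) * (U.map (Int.cast : ℤ → ℝ)).mulVec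
              (fun i => t i - 1) j = t i - 1 := h4
          simp only [Int.cast_one]
          rw [h5]
          ring
    have hV := (Pool.Agent.H912R3.Ehr.converse c1 c5 hM himg).2
    rw [hvol, inv_mul_eq_iff_eq_mul₀ hAabs.ne'] at hV
    rw [hV]
    ring

end Pool.Agent.Results.MP_4c844b_co.EhrhartVolume
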